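import Pool.Agent.W92.ET.Base2

set_option autoImplicit false

/-! Project ET (helper92): from the inequality for sets without 0 to the final statements. -/

namespace Pool.Agent.W131.ET
open Pool.Agent.W92.ET

/-- unordered representations -/
def RP (A : Set ℕ) (n : ℕ) : Set (ℕ × ℕ) :=
  {p : ℕ × ℕ | p.1 ∈ A ∧ p.2 ∈ A ∧ p.1 ≤ p.2 ∧ p.1 + p.2 = n}

theorem uc_eq (A : Set ℕ) (n : ℕ) : uc A n = (RP A n).ncard := rfl

theorem RP_fin (A : Set ℕ) (n : ℕ) : (RP A n).Finite := by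
  apply Set.Finite.subset (Finset.finite_toSet (Finset.range (n + 1) ×ˢ Finset.range (n + 1)))
  rintro ⟨a, b⟩ ⟨_, _, _, h⟩
  have h' : a + b = n := h
  rw [Finset.mem_coe, Finset.mem_product, Finset.mem_range, Finset.mem_range]
  constructor
  · show a < n + 1
    omega
  · show b < n + 1
    omega

/-- translate -/
def sh (A : Set ℕ) : Set ℕ := {n | ∃ a ∈ A, a + 1 = n}

theorem zero_notMem_sh (A : Set ℕ) : 0 ∉ sh A := by
  rintro ⟨a, _, h⟩
  omega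

theorem uc_sh (A : Set ℕ) (n : ℕ) : uc (sh A) (n + 2) = uc A n := by
  have h : RP (sh A) (n + 2) = (fun p : ℕ × ℕ => (p.1 + 1, p.2 + 1)) '' (RP A n) := by
    ext ⟨a, b⟩
    constructor
    · rintro ⟨⟨x, hx, hx'⟩, ⟨y, hy, hy'⟩, h3, h4⟩
      have h3' : a ≤ b := h3
      have h4' : a + b = n + 2 := h4
      have hx2 : x + 1 = a := hx'
      have hy2 : y + 1 = b := hy'
      refine ⟨(x, y), ⟨hx, hy, ?_, ?_⟩, ?_⟩
      · show x ≤ y
        omega
      · show x + y = n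
        omega
      · show (x + 1, y + 1) = (a, b)
        rw [hx2, hy2]
    · rintro ⟨⟨x, y⟩, ⟨hx, hy, h3, h4⟩, h5⟩
      have h3' : x ≤ y := h3
      have h4' : x + y = n := h4
      have h6 : x + 1 = a := congrArg Prod.fst h5
      have h7 : y + 1 = b := congrArg Prod.snd h5
      refine ⟨⟨x, hx, h6⟩, ⟨y, hy, h7⟩, ?_, ?_⟩
      · show a ≤ b
        omega
      · show a + b = n + 2
        omega
  rw [uc_eq, uc_eq, h, Set.ncard_image_of_injective]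
  intro p q hpq
  have h1 : p.1 + 1 = q.1 + 1 := congrArg Prod.fst hpq
  have h2 : p.2 + 1 = q.2 + 1 := congrArg Prod.snd hpq
  exact Prod.ext (by omega) (by omega)

/-- the summand -/
noncomputable def tm (A : Set ℕ) (n : ℕ) : ℝ :=
  1 / (n : ℝ) * (((uc (sh A) n : ℝ) - 1) * ((uc (sh A) n : ℝ) - 3))

theorem tm_le (A : Set ℕ) (n₀ K n : ℕ) (hA : ∀ n, n₀ ≤ n → 1 ≤ uc A n ∧ uc A n ≤ K)
    (hn : n₀ + 3 ≤ n) :
    tm A n ≤ if 4 ≤ uc A (n - 2) then (K : ℝ) ^ 2 * (1 / ((n - 2 : ℕ) : ℝ)) else 0 := by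
  obtain ⟨m, rfl⟩ : ∃ m, n = m + 2 := ⟨n - 2, by omega⟩
  have hm : n₀ ≤ m := by omega
  have hm1 : 1 ≤ m := by omega
  obtain ⟨h1, h2⟩ := hA m hm
  unfold tm
  rw [uc_sh, Nat.add_sub_cancel]
  have hm0 : (0 : ℝ) < m := by exact_mod_cast hm1
  have hm2 : (0 : ℝ) < ((m + 2 : ℕ) : ℝ) := by positivity
  split_ifs with h4
  · have h4' : (4 : ℝ) ≤ (uc A m : ℝ) := by exact_mod_cast h4
    have h2' : (uc A m : ℝ) ≤ (K : ℝ) := by exact_mod_cast h2
    have h5 : ((uc A m : ℝ) - 1) * ((uc A m : ℝ) - 3) ≤ (K : ℝ) ^ 2 := by nlinarith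
    have h6 : 1 / ((m + 2 : ℕ) : ℝ) ≤ 1 / (m : ℝ) := by
      apply one_div_le_one_div_of_le hm0
      push_cast
      linarith
    have h7 : 0 ≤ ((uc A m : ℝ) - 1) * ((uc A m : ℝ) - 3) :=
      mul_nonneg (by linarith) (by linarith)
    calc 1 / ((m + 2 : ℕ) : ℝ) * (((uc A m : ℝ) - 1) * ((uc A m : ℝ) - 3))
        ≤ 1 / (m : ℝ) * (K : ℝ) ^ 2 := mul_le_mul h6 h5 h7 (by positivity)
      _ = (K : ℝ) ^ 2 * (1 / (m : ℝ)) := mul_comm _ _
  · have h1' : (1 : ℝ) ≤ (uc A m : ℝ) := by exact_mod_cast h1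
    have h3 : uc A m ≤ 3 := by omega
    have h3' : (uc A m : ℝ) ≤ 3 := by exact_mod_cast h3
    apply mul_nonpos_of_nonneg_of_nonpos (by positivity)
    exact mul_nonpos_of_nonneg_of_nonpos (by linarith) (by linarith)

theorem sum_le (A : Set ℕ) (n₀ K N : ℕ) (hA : ∀ n, n₀ ≤ n → 1 ≤ uc A n ∧ uc A n ≤ K) :
    ∑ n ∈ Finset.Icc 1 N, tm A n ≤ ∑ n ∈ Finset.range (n₀ + 3), |tm A n| +
      (K : ℝ) ^ 2 * ∑ n ∈ (Finset.Icc 1 N).filter (fun n => 4 ≤ uc A n), 1 / (n : ℝ) := by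
  have h1 := Finset.sum_filter_add_sum_filter_not (Finset.Icc 1 N) (fun n => n < n₀ + 3) (tm A)
  rw [← h1]
  apply add_le_add
  · calc ∑ n ∈ (Finset.Icc 1 N).filter (fun n => n < n₀ + 3), tm A n
        ≤ ∑ n ∈ (Finset.Icc 1 N).filter (fun n => n < n₀ + 3), |tm A n| :=
          Finset.sum_le_sum fun n _ => le_abs_self _
      _ ≤ ∑ n ∈ Finset.range (n₀ + 3), |tm A n| := by
          apply Finset.sum_le_sum_of_subset_of_nonneg
          · intro n hn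
            exact Finset.mem_range.2 (Finset.mem_filter.1 hn).2
          · intro n _ _
            exact abs_nonneg _
  · set S := (Finset.Icc 1 N).filter (fun n => ¬ n < n₀ + 3) with hS
    have h2 : ∑ n ∈ S, tm A n ≤ ∑ n ∈ S,
        (if 4 ≤ uc A (n - 2) then (K : ℝ) ^ 2 * (1 / ((n - 2 : ℕ) : ℝ)) else 0) := by
      apply Finset.sum_le_sum
      intro n hn
      have h3 := (Finset.mem_filter.1 hn).2
      exact tm_le A n₀ K n hA (by omega)
    refine h2.trans ?_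
    rw [← Finset.sum_filter, ← Finset.mul_sum]
    apply mul_le_mul_of_nonneg_left _ (by positivity)
    have h4 : ∑ n ∈ S.filter (fun n => 4 ≤ uc A (n - 2)), (1 / ((n - 2 : ℕ) : ℝ)) =
        ∑ m ∈ (S.filter (fun n => 4 ≤ uc A (n - 2))).image (fun n : ℕ => (n - 2 : ℕ)),
          1 / (m : ℝ) := by
      rw [Finset.sum_image]
      intro a ha b hb hab
      have ha' := (Finset.mem_filter.1 (Finset.mem_filter.1 (Finset.mem_coe.1 ha)).1).2
      have hb' := (Finset.mem_filter.1 (Finset.mem_filter.1 (Finset.mem_coe.1 hb)).1).2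
      have hab' : a - 2 = b - 2 := hab
      omega
    rw [h4]
    apply Finset.sum_le_sum_of_subset_of_nonneg
    · intro m hm
      obtain ⟨n, hn, hnm⟩ := Finset.mem_image.1 hm
      have h5 := Finset.mem_filter.1 hn
      have h6 := Finset.mem_filter.1 h5.1
      have h7 := Finset.mem_Icc.1 h6.1
      have h8 := h6.2
      have h9 : n - 2 = m := hnm
      rw [Finset.mem_filter, Finset.mem_Icc]
      refine ⟨⟨by omega, by omega⟩, ?_⟩
      rw [← h9]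
      exact h5.2
    · intro m _ _
      positivity

theorem part2 (h : S_main2) : ∃ g : ℝ, 0 < g ∧ ∀ (A : Set ℕ) (K n₀ : ℕ),
    (∀ n, n₀ ≤ n → 1 ≤ uc A n ∧ uc A n ≤ K) → ∃ C : ℝ, ∀ N : ℕ, 1 ≤ N →
      g * Real.log N - C ≤
        (K : ℝ) ^ 2 * ∑ n ∈ (Finset.Icc 1 N).filter (fun n => 4 ≤ uc A n), 1 / (n : ℝ) := by
  obtain ⟨g, hg, h1⟩ := h
  refine ⟨g, hg, ?_⟩
  intro A K n₀ hA
  obtain ⟨C, hC⟩ := h1 (sh A) (n₀ + 2) K (zero_notMem_sh A) (by
    intro n hn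
    obtain ⟨m, rfl⟩ : ∃ m, n = m + 2 := ⟨n - 2, by omega⟩
    rw [uc_sh]
    exact hA m (by omega))
  refine ⟨C + ∑ n ∈ Finset.range (n₀ + 3), |tm A n|, ?_⟩
  intro N hN
  have h2 := hC N hN
  have h3 := sum_le A n₀ K N hA
  have h4 : ∑ n ∈ Finset.Icc 1 N,
      1 / (n : ℝ) * (((uc (sh A) n : ℝ) - 1) * ((uc (sh A) n : ℝ) - 3)) =
      ∑ n ∈ Finset.Icc 1 N, tm A n := rfl
  rw [h4] at h2
  linarith

theorem part1 (h : S_main2) : ∀ A : Set ℕ,
    (∃ n₀, ∀ n ≥ n₀, ∃ a ∈ A, ∃ b ∈ A, a + b = n) → ∀ N, ∃ n ≥ N, 4 ≤ uc A n := by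
  rintro A ⟨n₀, hb⟩ M
  by_contra hcon
  have hcon' : ∀ n, M ≤ n → uc A n ≤ 3 := by
    intro n hn
    by_contra h5
    exact hcon ⟨n, hn, by omega⟩
  obtain ⟨g, hg, h2⟩ := part2 h
  obtain ⟨C, hC⟩ := h2 A 3 (max n₀ M) (by
    intro n hn
    refine ⟨?_, hcon' n ((le_max_right _ _).trans hn)⟩
    obtain ⟨a, ha, b, hb', hab⟩ := hb n ((le_max_left _ _).trans hn)
    rw [uc_eq, Nat.succ_le_iff, Set.ncard_pos (RP_fin A n)]
    rcases le_total a b with h3 | h3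
    · exact ⟨(a, b), ha, hb', h3, hab⟩
    · exact ⟨(b, a), hb', ha, h3, by
        show b + a = n
        rw [add_comm]
        exact hab⟩)
  -- bounded sum
  have hbd : ∀ N : ℕ, ∑ n ∈ (Finset.Icc 1 N).filter (fun n => 4 ≤ uc A n), 1 / (n : ℝ) ≤ M := by
    intro N
    calc ∑ n ∈ (Finset.Icc 1 N).filter (fun n => 4 ≤ uc A n), 1 / (n : ℝ)
        ≤ ∑ _n ∈ (Finset.Icc 1 N).filter (fun n => 4 ≤ uc A n), (1 : ℝ) := by
          apply Finset.sum_le_sum
          intro n hn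
          have h3 := (Finset.mem_Icc.1 (Finset.mem_filter.1 hn).1).1
          have h4 : (1 : ℝ) ≤ (n : ℝ) := by exact_mod_cast h3
          rw [div_le_one (by linarith)]
          exact h4
      _ = (((Finset.Icc 1 N).filter (fun n => 4 ≤ uc A n)).card : ℝ) := by
          rw [Finset.sum_const, nsmul_eq_mul, mul_one]
      _ ≤ M := by
          have h3 : (Finset.Icc 1 N).filter (fun n => 4 ≤ uc A n) ⊆ Finset.range M := by
            intro n hn
            rw [Finset.mem_range]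
            by_contra h4
            have h5 := hcon' n (by omega)
            have h6 := (Finset.mem_filter.1 hn).2
            omega
          have h4 := Finset.card_le_card h3
          rw [Finset.card_range] at h4
          exact_mod_cast h4
  obtain ⟨N, hN⟩ := exists_nat_gt (Real.exp ((C + 9 * M + 1) / g))
  have hexp : 0 < Real.exp ((C + 9 * M + 1) / g) := Real.exp_pos _
  have hN0 : (0 : ℝ) < N := hexp.trans hN
  have hN1 : 1 ≤ N := by
    have : 0 < N := by exact_mod_cast hN0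
    omega
  have h5 := hC N hN1
  have h6 : (C + 9 * M + 1) / g < Real.log N := by
    rw [Real.lt_log_iff_exp_lt hN0]
    exact hN
  rw [div_lt_iff₀ hg] at h6
  have h7 := hbd N
  have h8 : ((3 : ℕ) : ℝ) ^ 2 = 9 := by norm_num
  rw [h8] at h5
  nlinarith

theorem fin2 (h : S_main2) :
    (∀ A : Set ℕ, (∃ n₀, ∀ n ≥ n₀, ∃ a ∈ A, ∃ b ∈ A, a + b = n) → ∀ N, ∃ n ≥ N, 4 ≤ uc A n) ∧
    (∃ g : ℝ, 0 < g ∧ ∀ (A : Set ℕ) (K n₀ : ℕ),
      (∀ n, n₀ ≤ n → 1 ≤ uc A n ∧ uc A n ≤ K) → ∃ C : ℝ, ∀ N : ℕ, 1 ≤ N →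
        g * Real.log N - C ≤
          (K : ℝ) ^ 2 * ∑ n ∈ (Finset.Icc 1 N).filter (fun n => 4 ≤ uc A n), 1 / (n : ℝ)) :=
  ⟨part1 h, part2 h⟩

end Pool.Agent.W131.ET
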