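import Pool.Agent.W559.Et.Stm6

set_option autoImplicit false

universe u v

namespace Pool.Agent.W131.ET

open Pool.Agent Pool.Agent.W559.Et Pool.Agent.H920R2

section

variable {k L : Type u} [Field k] [Field L] [Algebra k L]

/-- the prime of `B` under the local ring of `q` -/
def under (A B : Subalgebra k L) (q : Ideal A) (hq : q.IsPrime)
    (hBO : ∀ y ∈ B, ∃ a b : A, b ∉ q ∧ y * b = a) : Ideal B where
  carrier := {y | ∃ a b : A, a ∈ q ∧ b ∉ q ∧ (y : L) * b = a}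
  zero_mem' := ⟨0, 1, q.zero_mem, fun h => hq.ne_top ((Ideal.eq_top_iff_one q).2 h), by simp⟩
  add_mem' := by
    rintro x y ⟨a, b, ha, hb, h⟩ ⟨a', b', ha', hb', h'⟩
    refine ⟨a * b' + a' * b, b * b', q.add_mem (q.mul_mem_right _ ha) (q.mul_mem_right _ ha'),
      hq.mul_notMem hb hb', ?_⟩
    push_cast
    rw [← h, ← h']
    ring
  smul_mem' := by
    rintro c y ⟨a, b, ha, hb, h⟩
    obtain ⟨a', b', hb', h'⟩ := hBO c c.2
    refine ⟨a' * a, b' * b, q.mul_mem_left _ ha, hq.mul_notMem hb' hb, ?_⟩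
    rw [smul_eq_mul]
    push_cast
    rw [← h, ← h']
    ring

lemma under_prime (A B : Subalgebra k L) (q : Ideal A) (hq : q.IsPrime)
    (hBO : ∀ y ∈ B, ∃ a b : A, b ∉ q ∧ y * b = a) : (under A B q hq hBO).IsPrime where
  ne_top' := by
    intro h
    have h1 : (1 : B) ∈ under A B q hq hBO := by rw [h]; trivial
    obtain ⟨a, b, ha, hb, h2⟩ := h1
    have : b = a := Subtype.ext (by simpa using h2)
    exact hb (this ▸ ha)
  mem_or_mem' := by
    rintro y y' ⟨a, b, ha, hb, h⟩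
    obtain ⟨a1, b1, hb1, h1⟩ := hBO y y.2
    obtain ⟨a2, b2, hb2, h2⟩ := hBO y' y'.2
    have h3 : (a1 * a2) * b = a * (b1 * b2) := by
      apply Subtype.ext
      push_cast at h ⊢
      rw [← h1, ← h2, ← h]
      ring
    have h4 : (a1 * a2) * b ∈ q := by rw [h3]; exact q.mul_mem_right _ ha
    rcases hq.mem_or_mem h4 with h5 | h5
    · rcases hq.mem_or_mem h5 with h6 | h6
      · exact Or.inl ⟨a1, b1, h6, hb1, h1⟩
      · exact Or.inr ⟨a2, b2, h6, hb2, h2⟩
    · exact absurd h5 hb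

theorem pt_general (A B : Subalgebra k L) (f g : L) (hf : f ∈ A) (hg : g ∈ B) (hfg : f * g = 1)
    (hD1 : ∀ y ∈ B, ∃ n : ℕ, f ^ n * y ∈ A) (hD2 : ∀ y ∈ A, ∃ n : ℕ, g ^ n * y ∈ B)
    (q : Ideal A) (hq : q.IsPrime) (hfq : (⟨f, hf⟩ : A) ∉ q) :
    ∃ (q' : Ideal B) (hq' : q'.IsPrime), locR A q hq = locR B q' hq' := by
  have hpow : ∀ n : ℕ, (⟨f, hf⟩ : A) ^ n ∉ q := fun n h => hfq (hq.mem_of_pow_mem n h)
  have hBO : ∀ y ∈ B, ∃ a b : A, b ∉ q ∧ y * b = a := by
    intro y hy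
    obtain ⟨n, hn⟩ := hD1 y hy
    refine ⟨⟨f ^ n * y, hn⟩, (⟨f, hf⟩ : A) ^ n, hpow n, ?_⟩
    push_cast
    ring
  refine ⟨under A B q hq hBO, under_prime A B q hq hBO, ?_⟩
  apply le_antisymm
  · rintro x ⟨a, b, hb, h⟩
    obtain ⟨n1, hn1⟩ := hD2 a a.2
    obtain ⟨n2, hn2⟩ := hD2 b b.2
    have ha' : g ^ (n1 + n2) * (a : L) ∈ B := by
      have : g ^ (n1 + n2) * (a : L) = g ^ n2 * (g ^ n1 * a) := by rw [pow_add]; ring
      rw [this]
      exact B.mul_mem (B.pow_mem hg _) hn1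
    have hb' : g ^ (n1 + n2) * (b : L) ∈ B := by
      have : g ^ (n1 + n2) * (b : L) = g ^ n1 * (g ^ n2 * b) := by rw [pow_add]; ring
      rw [this]
      exact B.mul_mem (B.pow_mem hg _) hn2
    refine ⟨⟨_, ha'⟩, ⟨_, hb'⟩, ?_, ?_⟩
    · rintro ⟨a1, b1, ha1, hb1, h1⟩
      have h2 : b * b1 = (⟨f, hf⟩ : A) ^ (n1 + n2) * a1 := by
        apply Subtype.ext
        push_cast
        rw [← h1]
        have : f ^ (n1 + n2) * (g ^ (n1 + n2) * (b : L) * b1) =
            (f * g) ^ (n1 + n2) * ((b : L) * b1) := by rw [mul_pow]; ring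
        change (b : L) * b1 = f ^ (n1 + n2) * (g ^ (n1 + n2) * (b : L) * b1)
        rw [this, hfg, one_pow, one_mul]
      have h3 : b * b1 ∈ q := by rw [h2]; exact q.mul_mem_left _ ha1
      exact hq.mul_notMem hb hb1 h3
    · change x * (g ^ (n1 + n2) * (b : L)) = g ^ (n1 + n2) * (a : L)
      rw [← h]
      ring
  · rintro x ⟨a, b, hb, h⟩
    obtain ⟨a1, b1, hb1, h1⟩ := hBO b b.2
    obtain ⟨a2, b2, hb2, h2⟩ := hBO a a.2
    have ha1 : a1 ∉ q := fun h3 => hb ⟨a1, b1, h3, hb1, h1⟩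
    refine ⟨a2 * b1, a1 * b2, hq.mul_notMem ha1 hb2, ?_⟩
    push_cast
    rw [← h1, ← h2, ← h]
    ring

end

theorem pt : PtStm.{u} := by
  intro k L _ _ _ l z hz d hd G hG hG0 q hq
  obtain ⟨i, hi⟩ : ∃ i, (⟨z i ^ d / G, FS_div_mem z (FS_z z i d)⟩ : AF k z d G) ∉ q := by
    by_contra hcon
    push Not at hcon
    have h1 : ∀ x ∈ MN z d, ∃ h : x / G ∈ AF k z d G, (⟨x / G, h⟩ : AF k z d G) ∈ q := by
      rintro x hx
      have hxF : x / G ∈ AF k z d G := Algebra.subset_adjoin ⟨x, hx, rfl⟩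
      refine ⟨hxF, ?_⟩
      obtain ⟨a, ha, rfl⟩ := hx
      apply hq.mem_of_pow_mem d
      have h2 : (⟨_, hxF⟩ : AF k z d G) ^ d =
          ∏ i, (⟨z i ^ d / G, FS_div_mem z (FS_z z i d)⟩ : AF k z d G) ^ a i := by
        apply Subtype.ext
        change ((∏ i, z i ^ a i) / G) ^ d = ((AF k z d G).val)
          (∏ i, (⟨z i ^ d / G, FS_div_mem z (FS_z z i d)⟩ : AF k z d G) ^ a i)
        rw [map_prod]
        have h3 : ∀ i, (AF k z d G).val
            ((⟨z i ^ d / G, FS_div_mem z (FS_z z i d)⟩ : AF k z d G) ^ a i) =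
            (z i ^ a i) ^ d / G ^ a i := by
          intro i
          change (z i ^ d / G) ^ a i = _
          rw [div_pow, ← pow_mul, ← pow_mul, mul_comm d]
        rw [Finset.prod_congr rfl fun i _ => h3 i, Finset.prod_div_distrib, Finset.prod_pow,
          Finset.prod_pow_eq_pow_sum, ha, div_pow]
      rw [h2]
      obtain ⟨i, hi⟩ : ∃ i, a i ≠ 0 := by
        by_contra hcon2
        push Not at hcon2
        have : ∑ i, a i = 0 := Finset.sum_eq_zero fun i _ => hcon2 i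
        omega
      rw [← Finset.mul_prod_erase _ _ (Finset.mem_univ i)]
      exact q.mul_mem_right _ (Ideal.pow_mem_of_mem _ (hcon i) _ (Nat.pos_of_ne_zero hi))
    have h2 : ∀ x ∈ FS k z d, ∃ h : x / G ∈ AF k z d G, (⟨x / G, h⟩ : AF k z d G) ∈ q := by
      intro x hx
      refine ⟨FS_div_mem z hx, ?_⟩
      unfold FS at hx
      induction hx using Submodule.span_induction with
      | mem x hx => exact (h1 x hx).2
      | zero =>
        have h3 : (⟨0 / G, FS_div_mem z (Submodule.zero_mem _)⟩ : AF k z d G) = 0 :=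
          Subtype.ext (zero_div G)
        rw [h3]
        exact q.zero_mem
      | add a b ha' hb' ha hb =>
        have h3 : (⟨(a + b) / G, FS_div_mem z (Submodule.add_mem _ ha' hb')⟩ : AF k z d G) =
            ⟨a / G, FS_div_mem z ha'⟩ + ⟨b / G, FS_div_mem z hb'⟩ := Subtype.ext (add_div _ _ _)
        rw [h3]
        exact q.add_mem ha hb
      | smul c a ha' ha =>
        have h3 : (⟨(c • a) / G, FS_div_mem z (Submodule.smul_mem _ c ha')⟩ : AF k z d G) =
            c • ⟨a / G, FS_div_mem z ha'⟩ := Subtype.ext (smul_div_assoc _ _ _)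
        rw [h3, Algebra.smul_def]
        exact q.mul_mem_left _ ha
    obtain ⟨h, h3⟩ := h2 G hG
    have h4 : (⟨G / G, h⟩ : AF k z d G) = 1 := Subtype.ext (div_self hG0)
    rw [h4] at h3
    exact hq.ne_top ((Ideal.eq_top_iff_one q).2 h3)
  have hD := locL_AF z hz i hd hG hG0
  have hzd : z i ^ d ≠ 0 := pow_ne_zero _ (hz i)
  refine ⟨i, pt_general (AF k z d G) (AZ k z i) (z i ^ d / G) (G / z i ^ d)
    (FS_div_mem z (FS_z z i d)) (FS_div_mem' z i hG) ?_ ?_ ?_ q hq hi⟩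
  · rw [div_mul_div_comm, mul_comm, div_self (mul_ne_zero hG0 hzd)]
  · intro y hy
    have h1 : y ∈ locL (AZ k z i) (G / z i ^ d) (FS_div_mem' z i hG) := le_locL _ _ _ hy
    rw [← hD] at h1
    exact h1
  · intro y hy
    have h1 : y ∈ locL (AF k z d G) (z i ^ d / G) (FS_div_mem z (FS_z z i d)) :=
      le_locL _ _ _ hy
    rw [hD] at h1
    exact h1

end Pool.Agent.W131.ET
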